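import Mathlib

set_option autoImplicit false

/-!
Mertens' theorems with bounded error.
-/

namespace Pool.Agent.Helper9.Fam

open Finset

/-- Primes up to `t`. -/
noncomputable def pr (t : ℕ) : Finset ℕ := (Icc 1 t).filter Nat.Prime

theorem mem_pr {t r : ℕ} : r ∈ pr t ↔ r.Prime ∧ r ≤ t := by
  unfold pr
  rw [mem_filter, mem_Icc]
  constructor
  · rintro ⟨⟨_, h⟩, h2⟩; exact ⟨h2, h⟩
  · rintro ⟨h2, h⟩; exact ⟨⟨h2.one_le, h⟩, h2⟩

theorem sum_log_pr_le (t : ℕ) : ∑ r ∈ pr t, Real.log r ≤ Real.log 4 * t := by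
  have := Chebyshev.theta_le_log4_mul_x (x := (t : ℝ)) (by positivity)
  rw [Chebyshev.theta_eq_sum_primesLE_log] at this
  refine le_trans (le_of_eq ?_) this
  apply Finset.sum_congr _ (fun _ _ => rfl)
  ext r
  rw [mem_pr, Nat.mem_primesLE]
  tauto

lemma log_fact (t : ℕ) : Real.log (t.factorial)
    = ∑ r ∈ pr t, ((t.factorial).factorization r : ℝ) * Real.log r := by
  rw [Real.log_nat_eq_sum_factorization, Finsupp.sum]
  apply Finset.sum_subset
  · intro r hr
    rw [Nat.support_factorization] at hr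
    rw [mem_pr]
    have hp := Nat.prime_of_mem_primeFactors hr
    exact ⟨hp, (Nat.Prime.dvd_factorial hp).1 (Nat.dvd_of_mem_primeFactors hr)⟩
  · intro r _ hr
    rw [Finsupp.notMem_support_iff] at hr
    rw [hr]; simp

theorem sum_log_div_le (t : ℕ) (ht : 1 ≤ t) :
    ∑ r ∈ pr t, Real.log r / r ≤ Real.log t + Real.log 4 := by
  have ht0 : (0 : ℝ) < t := by exact_mod_cast ht
  have h2 : ∑ r ∈ pr t, ((t : ℝ) / r - 1) * Real.log r ≤ Real.log (t.factorial) := by
    rw [log_fact]
    apply Finset.sum_le_sum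
    intro r hr
    have hp := (mem_pr.1 hr).1
    apply mul_le_mul_of_nonneg_right _ (Real.log_nonneg (by exact_mod_cast hp.one_le))
    have hle : t / r ≤ (t.factorial).factorization r := by
      rw [Nat.factorization_factorial hp (b := Nat.log r t + 2) (by omega)]
      calc t / r = t / r ^ 1 := by rw [pow_one]
        _ ≤ ∑ i ∈ Ico 1 (Nat.log r t + 2), t / r ^ i :=
            Finset.single_le_sum (f := fun i => t / r ^ i) (fun _ _ => Nat.zero_le _)
              (by rw [mem_Ico]; omega)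
    have h3 : (t : ℝ) / r - 1 ≤ ((t / r : ℕ) : ℝ) := by
      have := Nat.lt_div_mul_add (a := t) hp.pos
      have hr0 : (0 : ℝ) < r := by exact_mod_cast hp.pos
      rw [sub_le_iff_le_add, div_le_iff₀ hr0]
      have h5 : (t : ℝ) ≤ (t / r : ℕ) * r + r := by exact_mod_cast this.le
      linarith
    exact h3.trans (by exact_mod_cast hle)
  have h3 : Real.log (t.factorial) ≤ t * Real.log t := by
    have : (t.factorial : ℝ) ≤ (t : ℝ) ^ t := by exact_mod_cast Nat.factorial_le_pow t
    calc Real.log (t.factorial) ≤ Real.log ((t : ℝ) ^ t) :=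
          Real.log_le_log (by exact_mod_cast Nat.factorial_pos t) this
      _ = _ := by rw [Real.log_pow]
  have h4 := sum_log_pr_le t
  have h5 : ∑ r ∈ pr t, ((t : ℝ) / r - 1) * Real.log r =
      t * (∑ r ∈ pr t, Real.log r / r) - ∑ r ∈ pr t, Real.log r := by
    rw [Finset.mul_sum, ← Finset.sum_sub_distrib]
    apply Finset.sum_congr rfl
    intro r _
    ring
  rw [h5] at h2
  have h6 : t * (∑ r ∈ pr t, Real.log r / r) ≤ t * (Real.log t + Real.log 4) := by linarith
  exact le_of_mul_le_mul_left h6 ht0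

theorem exists_sum_log_sq : ∃ C : ℝ, 0 ≤ C ∧ ∀ t : ℕ, ∑ r ∈ pr t, Real.log r / (r : ℝ) ^ 2 ≤ C := by
  have hs : Summable (fun k : ℕ => 2 * (1 / (k : ℝ) ^ (3 / 2 : ℝ))) :=
    ((Real.summable_one_div_nat_rpow (p := 3 / 2)).2 (by norm_num)).mul_left 2
  refine ⟨∑' k : ℕ, 2 * (1 / (k : ℝ) ^ (3 / 2 : ℝ)), tsum_nonneg fun k => by positivity, ?_⟩
  intro t
  calc ∑ r ∈ pr t, Real.log r / (r : ℝ) ^ 2 ≤ ∑ r ∈ pr t, 2 * (1 / (r : ℝ) ^ (3 / 2 : ℝ)) := by
        apply Finset.sum_le_sum
        intro r hr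
        have hp := (mem_pr.1 hr).1
        have hr0 : (0 : ℝ) < r := by exact_mod_cast hp.pos
        have h1 : Real.log r ≤ 2 * (r : ℝ) ^ (1 / 2 : ℝ) := by
          have := Real.log_le_rpow_div hr0.le (show (0 : ℝ) < 1 / 2 by norm_num)
          linarith
        have h2 : (r : ℝ) ^ 2 = (r : ℝ) ^ (1 / 2 : ℝ) * (r : ℝ) ^ (3 / 2 : ℝ) := by
          rw [← Real.rpow_add hr0]
          norm_num
        rw [h2, div_le_iff₀ (by positivity)]
        have h3 : (0 : ℝ) < (r : ℝ) ^ (3 / 2 : ℝ) := by positivity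
        field_simp
        linarith
    _ ≤ _ := hs.sum_le_tsum _ (fun k _ => by positivity)

theorem exists_mertens_lower : ∃ C : ℝ, 0 ≤ C ∧ ∀ t : ℕ, 1 ≤ t →
    Real.log t - C ≤ ∑ r ∈ pr t, Real.log r / (r : ℝ) := by
  obtain ⟨C, hC0, hC⟩ := exists_sum_log_sq
  refine ⟨1 + 2 * C, by linarith, ?_⟩
  intro t ht
  have ht0 : (0 : ℝ) < t := by exact_mod_cast ht
  have h1 : t * Real.log t - t ≤ Real.log (t.factorial) := by
    have h2 := Real.pow_div_factorial_le_exp (t : ℝ) ht0.le t
    have h3 : Real.log ((t : ℝ) ^ t / (t.factorial : ℝ)) ≤ t := by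
      have := Real.log_le_log (by positivity) h2
      rwa [Real.log_exp] at this
    rw [Real.log_div (by positivity) (by positivity), Real.log_pow] at h3
    linarith
  have h2 : Real.log (t.factorial) ≤ t * ∑ r ∈ pr t, Real.log r / ((r : ℝ) - 1) := by
    rw [log_fact, Finset.mul_sum]
    apply Finset.sum_le_sum
    intro r hr
    have hp := (mem_pr.1 hr).1
    have hr2 : (2 : ℝ) ≤ r := by exact_mod_cast hp.two_le
    have hl : 0 ≤ Real.log r := Real.log_nonneg (by linarith)
    have h3 : ((t.factorial).factorization r : ℝ) ≤ (t : ℝ) / ((r : ℝ) - 1) := by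
      have e1 := Nat.factorization_factorial_le_div_pred hp t
      have e2 : ((t / (r - 1) : ℕ) : ℝ) ≤ (t : ℝ) / ((r - 1 : ℕ) : ℝ) := Nat.cast_div_le
      have e3 : ((r - 1 : ℕ) : ℝ) = (r : ℝ) - 1 := by
        rw [Nat.cast_sub hp.one_le]; simp
      rw [e3] at e2
      have e4 : ((t.factorial).factorization r : ℝ) ≤ ((t / (r - 1) : ℕ) : ℝ) := by exact_mod_cast e1
      linarith
    calc ((t.factorial).factorization r : ℝ) * Real.log r ≤ (t : ℝ) / ((r : ℝ) - 1) * Real.log r :=
          mul_le_mul_of_nonneg_right h3 hl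
      _ = _ := by ring
  have h3 : ∑ r ∈ pr t, Real.log r / ((r : ℝ) - 1) ≤
      ∑ r ∈ pr t, (Real.log r / r + 2 * (Real.log r / (r : ℝ) ^ 2)) := by
    apply Finset.sum_le_sum
    intro r hr
    have hp := (mem_pr.1 hr).1
    have hr2 : (2 : ℝ) ≤ r := by exact_mod_cast hp.two_le
    have hl : 0 ≤ Real.log r := Real.log_nonneg (by linarith)
    have e : 1 / ((r : ℝ) - 1) ≤ 1 / r + 2 / (r : ℝ) ^ 2 := by
      rw [div_add_div _ _ (by positivity) (by positivity), div_le_div_iff₀ (by linarith) (by positivity)]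
      nlinarith
    calc Real.log r / ((r : ℝ) - 1) = Real.log r * (1 / ((r : ℝ) - 1)) := by ring
      _ ≤ Real.log r * (1 / r + 2 / (r : ℝ) ^ 2) := mul_le_mul_of_nonneg_left e hl
      _ = _ := by ring
  rw [Finset.sum_add_distrib, ← Finset.mul_sum] at h3
  have h4 := hC t
  have h5 : t * (Real.log t - 1) ≤ t * (∑ r ∈ pr t, Real.log r / (r : ℝ) + 2 * C) := by
    calc t * (Real.log t - 1) = t * Real.log t - t := by ring
      _ ≤ t * ∑ r ∈ pr t, Real.log r / ((r : ℝ) - 1) := h1.trans h2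
      _ ≤ _ := by
        apply mul_le_mul_of_nonneg_left _ ht0.le
        linarith
  have := le_of_mul_le_mul_left h5 ht0
  linarith

lemma pr_succ (n : ℕ) (g : ℕ → ℝ) :
    ∑ r ∈ pr (n + 1), g r = ∑ r ∈ pr n, g r + if (n + 1).Prime then g (n + 1) else 0 := by
  unfold pr
  rw [Finset.sum_filter, Finset.sum_filter, Finset.sum_Icc_succ_top (by omega)]

/-- Mertens' second theorem. -/
theorem mertens_two : ∃ C : ℝ, 0 ≤ C ∧ ∀ n : ℕ, 2 ≤ n →
    |∑ r ∈ pr n, 1 / (r : ℝ) - Real.log (Real.log n)| ≤ C := by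
  obtain ⟨C₁, hC₁, hlow⟩ := exists_mertens_lower
  set C₀ : ℝ := max C₁ (Real.log 4) with hC₀
  have hC₀0 : 0 ≤ C₀ := hC₁.trans (le_max_left _ _)
  set A : ℕ → ℝ := fun n => ∑ r ∈ pr n, Real.log r / (r : ℝ) with hA
  set S : ℕ → ℝ := fun n => ∑ r ∈ pr n, 1 / (r : ℝ) with hS
  have hAb : ∀ n : ℕ, 1 ≤ n → |A n - Real.log n| ≤ C₀ := by
    intro n hn
    have h1 := hlow n hn
    have h2 := sum_log_div_le n hn
    rw [abs_le]
    constructor
    · have := le_max_left C₁ (Real.log 4); simp only [hA]; linarith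
    · have := le_max_right C₁ (Real.log 4); simp only [hA]; linarith
  have hlogpos : ∀ n : ℕ, 2 ≤ n → 0 < Real.log n := by
    intro n hn
    exact Real.log_pos (by exact_mod_cast (by omega : 1 < n))
  have hstep : ∀ n : ℕ, 2 ≤ n → S (n + 1) - A (n + 1) / Real.log ((n + 1 : ℕ) : ℝ)
      = S n - A n / Real.log n + A n * (1 / Real.log n - 1 / Real.log ((n + 1 : ℕ) : ℝ)) := by
    intro n hn
    have h0 := (hlogpos n hn).ne'
    have h1 := (hlogpos (n + 1) (by omega)).ne'
    simp only [hS, hA]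
    rw [pr_succ, pr_succ]
    split_ifs
    · have : ((n + 1 : ℕ) : ℝ) ≠ 0 := by positivity
      field_simp
      ring
    · field_simp
      ring
  have hg : ∀ n : ℕ, 2 ≤ n →
      Real.log n * (1 / Real.log n - 1 / Real.log ((n + 1 : ℕ) : ℝ))
        ≤ Real.log (Real.log ((n + 1 : ℕ) : ℝ)) - Real.log (Real.log n) ∧
      Real.log (Real.log ((n + 1 : ℕ) : ℝ)) - Real.log (Real.log n)
        - (1 / Real.log n - 1 / Real.log ((n + 1 : ℕ) : ℝ))
        ≤ Real.log n * (1 / Real.log n - 1 / Real.log ((n + 1 : ℕ) : ℝ)) := by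
    intro n hn
    have h0 := hlogpos n hn
    have h1 := hlogpos (n + 1) (by omega)
    have hn0 : (0 : ℝ) < n := by exact_mod_cast (by omega : 0 < n)
    have hle : Real.log n ≤ Real.log ((n + 1 : ℕ) : ℝ) :=
      Real.log_le_log hn0 (by push_cast; linarith)
    have hd : Real.log ((n + 1 : ℕ) : ℝ) - Real.log n ≤ 1 := by
      rw [← Real.log_div (by positivity) hn0.ne']
      have h2 := Real.log_le_sub_one_of_pos (show (0 : ℝ) < ((n + 1 : ℕ) : ℝ) / n by positivity)
      refine h2.trans ?_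
      have h3 : ((n + 1 : ℕ) : ℝ) / n ≤ 2 := by
        rw [div_le_iff₀ hn0]; push_cast
        have : (2 : ℝ) ≤ n := by exact_mod_cast hn
        linarith
      linarith
    set a := Real.log n with ha
    set b := Real.log ((n + 1 : ℕ) : ℝ) with hb
    have e : Real.log b - Real.log a = Real.log (b / a) := (Real.log_div h1.ne' h0.ne').symm
    constructor
    · rw [e]
      have h2 := Real.one_sub_inv_le_log_of_pos (show 0 < b / a by positivity)
      refine le_trans (le_of_eq ?_) h2
      field_simp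
    · rw [e]
      have h2 := Real.log_le_sub_one_of_pos (show 0 < b / a by positivity)
      have h3 : b / a - 1 ≤ (1 + a) * (1 / a - 1 / b) := by
        have h4 : (1 + a) * (1 / a - 1 / b) - (b / a - 1) = (b - a) * (1 - (b - a)) / (a * b) := by
          field_simp; ring
        have h5 : 0 ≤ (b - a) * (1 - (b - a)) / (a * b) := by
          apply div_nonneg (mul_nonneg (by linarith) (by linarith)) (by positivity)
        linarith
      linarith
  -- induction
  have hup : ∀ n : ℕ, 2 ≤ n → S n - A n / Real.log n - Real.log (Real.log n) + C₀ / Real.log n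
      ≤ S 2 - A 2 / Real.log (2 : ℕ) - Real.log (Real.log (2 : ℕ)) + C₀ / Real.log (2 : ℕ) := by
    intro n hn
    induction n, hn using Nat.le_induction with
    | base => exact le_rfl
    | succ n hn ih =>
      refine le_trans ?_ ih
      have h0 := hlogpos n hn
      have h1 := hlogpos (n + 1) (by omega)
      have hδ : 0 ≤ 1 / Real.log n - 1 / Real.log ((n + 1 : ℕ) : ℝ) := by
        have : Real.log n ≤ Real.log ((n + 1 : ℕ) : ℝ) :=
          Real.log_le_log (by exact_mod_cast (by omega : 0 < n)) (by push_cast; linarith)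
        have := one_div_le_one_div_of_le h0 this
        linarith
      have hAn := (abs_le.mp (hAb n (by omega))).2
      have h2 := (hg n hn).1
      have h3 : A n * (1 / Real.log n - 1 / Real.log ((n + 1 : ℕ) : ℝ))
          ≤ (Real.log n + C₀) * (1 / Real.log n - 1 / Real.log ((n + 1 : ℕ) : ℝ)) :=
        mul_le_mul_of_nonneg_right (by linarith) hδ
      have h4 := hstep n hn
      have h5 : C₀ / Real.log n - C₀ / Real.log ((n + 1 : ℕ) : ℝ)
          = C₀ * (1 / Real.log n - 1 / Real.log ((n + 1 : ℕ) : ℝ)) := by ring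
      linarith
  have hdown : ∀ n : ℕ, 2 ≤ n → S 2 - A 2 / Real.log (2 : ℕ) - Real.log (Real.log (2 : ℕ))
      - (1 + C₀) / Real.log (2 : ℕ)
      ≤ S n - A n / Real.log n - Real.log (Real.log n) - (1 + C₀) / Real.log n := by
    intro n hn
    induction n, hn using Nat.le_induction with
    | base => exact le_rfl
    | succ n hn ih =>
      refine le_trans ih ?_
      have h0 := hlogpos n hn
      have h1 := hlogpos (n + 1) (by omega)
      have hδ : 0 ≤ 1 / Real.log n - 1 / Real.log ((n + 1 : ℕ) : ℝ) := by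
        have : Real.log n ≤ Real.log ((n + 1 : ℕ) : ℝ) :=
          Real.log_le_log (by exact_mod_cast (by omega : 0 < n)) (by push_cast; linarith)
        have := one_div_le_one_div_of_le h0 this
        linarith
      have hAn := (abs_le.mp (hAb n (by omega))).1
      have h2 := (hg n hn).2
      have h3 : (Real.log n - C₀) * (1 / Real.log n - 1 / Real.log ((n + 1 : ℕ) : ℝ))
          ≤ A n * (1 / Real.log n - 1 / Real.log ((n + 1 : ℕ) : ℝ)) :=
        mul_le_mul_of_nonneg_right (by linarith) hδ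
      have h4 := hstep n hn
      have h5 : (1 + C₀) / Real.log n - (1 + C₀) / Real.log ((n + 1 : ℕ) : ℝ)
          = (1 + C₀) * (1 / Real.log n - 1 / Real.log ((n + 1 : ℕ) : ℝ)) := by ring
      linarith
  set K : ℝ := |S 2 - A 2 / Real.log (2 : ℕ) - Real.log (Real.log (2 : ℕ))| with hK
  have hl2 := hlogpos 2 le_rfl
  refine ⟨K + 1 + 3 * ((1 + C₀) / Real.log (2 : ℕ)), by positivity, fun n hn => ?_⟩
  have h0 := hlogpos n hn
  have hl : Real.log (2 : ℕ) ≤ Real.log n :=
    Real.log_le_log (by norm_num) (by exact_mod_cast hn)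
  have hA1 : |A n / Real.log n - 1| ≤ (1 + C₀) / Real.log (2 : ℕ) := by
    have e : A n / Real.log n - 1 = (A n - Real.log n) / Real.log n := by field_simp
    rw [e, abs_div, abs_of_pos h0]
    exact div_le_div₀ (by linarith) ((hAb n (by omega)).trans (by linarith)) hl2 hl
  have hc1 : (1 + C₀) / Real.log n ≤ (1 + C₀) / Real.log (2 : ℕ) :=
    div_le_div_of_nonneg_left (by linarith) hl2 hl
  have hc2 : 0 ≤ (1 + C₀) / Real.log n := by positivity
  have hc3 : 0 ≤ C₀ / Real.log n := by positivity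
  have hc4 : C₀ / Real.log (2 : ℕ) ≤ (1 + C₀) / Real.log (2 : ℕ) := by
    apply div_le_div_of_nonneg_right _ hl2.le; linarith
  have h1 := hup n hn
  have h2 := hdown n hn
  have h3 := abs_le.mp (le_refl K)
  have h4 := abs_le.mp hA1
  have h5 := le_abs_self (S 2 - A 2 / Real.log (2 : ℕ) - Real.log (Real.log (2 : ℕ)))
  have h6 := neg_abs_le (S 2 - A 2 / Real.log (2 : ℕ) - Real.log (Real.log (2 : ℕ)))
  rw [abs_le]
  constructor <;> linarith

end Pool.Agent.Helper9.Fam
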